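import Pool.Agent.Helper26.WR.Stmts

set_option autoImplicit false

/-! # Module NPC: `N_P` is the least common denominator of all conductors -/

namespace Pool.Agent.Helper26.WR

open Pool.Agent.Helper21.DN

universe u

/-- the order of the group is a common denominator -/
theorem npc_card (hCOND : ST_COND.{u}) (hRAM : ST_RAM.{u}) (p : ℕ) [Fact p.Prime] (k : Type u)
    [Field k] [CharP k p] [IsAlgClosed k] (P : Type) [Group P] [Finite P] (hP : IsPGroup p P)
    (hnt : Nontrivial P) (c : ℝ) (hc : c ∈ condSet k P) :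
    ∃ a : ℤ, (Nat.card P : ℝ) * c = (a : ℝ) := by
  classical
  obtain ⟨L, iF, iA, iFD, iG, ⟨i0⟩, rfl⟩ := hc
  obtain ⟨v, hv, hRam⟩ := hRAM k L
  have hPL : IsPGroup p (L ≃ₐ[LaurentSeries k] L) := hP.of_equiv i0.symm
  have hntL : Nontrivial (L ≃ₐ[LaurentSeries k] L) := i0.toEquiv.nontrivial
  have h1 := hCOND p k L v hv hRam hPL hntL
  have h2 : (Nat.card P : ℝ) = (Fintype.card (L ≃ₐ[LaurentSeries k] L) : ℝ) := by
    rw [← Nat.card_congr i0.toEquiv, Nat.card_eq_fintype_card]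
  have h3 : (Fintype.card (L ≃ₐ[LaurentSeries k] L) : ℝ) ≠ 0 := by
    exact_mod_cast Fintype.card_ne_zero
  refine ⟨((S1 (fun σ : L ≃ₐ[LaurentSeries k] L => s v σ) +
    x0 (fun σ : L ≃ₐ[LaurentSeries k] L => s v σ) : ℕ) : ℤ), ?_⟩
  rw [h1, h2, Pool.Agent.Helper21.DN.cond, mul_div_cancel₀ _ h3]
  push_cast
  rfl

theorem st_NPC (hTBC : ST_TBC.{u}) (hCOND : ST_COND.{u}) (hRAM : ST_RAM.{u})
    (hNPU : ST_NPU.{u}) : ST_NPC.{u} := by
  intro p hp k _ _ _ P _ _ hP hnt
  classical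
  have hcard := npc_card hCOND hRAM p k P hP hnt
  have hq0 : 0 < Nat.card P := Nat.card_pos
  obtain ⟨hN0, hND⟩ := hNPU k P (Nat.card P) hq0 hcard
  refine ⟨hN0, hND, ?_⟩
  -- `p` divides the order of `P`
  have hpq : p ∣ Nat.card P := by
    obtain ⟨n, hn, hn2⟩ := (hP.nontrivial_iff_card).mp hnt
    rw [hn2]
    exact dvd_pow_self p (by omega)
  -- the almost all property
  have hAA : AlmostAll k P (NP k P) := by
    have hne : {N | AlmostAll k P N}.Nonempty := by
      refine ⟨Nat.card P, hq0, ?_⟩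
      have : {c | c ∈ condSet k P ∧ ¬ ∃ z : ℤ, (Nat.card P : ℝ) * c = (z : ℝ)} = ∅ := by
        rw [Set.eq_empty_iff_forall_notMem]
        rintro c ⟨hc1, hc2⟩
        exact hc2 (hcard c hc1)
      rw [this]
      exact Set.finite_empty
    exact Nat.sInf_mem hne
  intro c hc
  by_contra hcon
  have hc0 : c ≠ 0 := by
    rintro rfl
    exact hcon ⟨0, by simp⟩
  obtain ⟨b, hb⟩ := hcard c hc
  have hcl : ∀ l : ℕ, (((1 + Nat.card P * l : ℕ) : ℝ) * c) ∈
      {c | c ∈ condSet k P ∧ ¬ ∃ z : ℤ, (NP k P : ℝ) * c = (z : ℝ)} := by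
    intro l
    refine ⟨hTBC p k P hP hnt c hc _ ?_, ?_⟩
    · intro h
      have h1 := (Nat.dvd_add_left (Dvd.dvd.mul_right hpq l)).mp h
      exact hp.out.one_lt.ne' (Nat.dvd_one.mp h1)
    · rintro ⟨z, hz⟩
      apply hcon
      refine ⟨z - (NP k P : ℤ) * l * b, ?_⟩
      push_cast at hz ⊢
      rw [← hz, ← hb]
      ring
  have hinj : Function.Injective (fun l : ℕ => ((1 + Nat.card P * l : ℕ) : ℝ) * c) := by
    intro l l' h
    have h1 := mul_right_cancel₀ hc0 h
    have h2 : 1 + Nat.card P * l = 1 + Nat.card P * l' := by exact_mod_cast h1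
    exact Nat.eq_of_mul_eq_mul_left hq0 (by omega)
  exact (Set.infinite_of_injective_forall_mem hinj hcl) hAA.2

end Pool.Agent.Helper26.WR
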